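import Mathlib
import Pool.Agent.N463.HW.Stm

/-!
Project HW (helper463), MP_11bc5f_an, part TOP (helper674): the domain `{ |z| < r(arg z) }`.
-/

set_option autoImplicit false

open MeasureTheory

namespace Pool.Agent.N674.HW

open Pool.Agent.N463.HW

/-- a continuous periodic function as a function of an angle -/
theorem lift_angle (r : ℝ → ℝ) (hc : Continuous r) (hp : Function.Periodic r (2 * Real.pi)) :
    ∃ R : Real.Angle → ℝ, Continuous R ∧ ∀ θ : ℝ, R (θ : Real.Angle) = r θ :=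
  ⟨fun θ => hp.lift θ, hc.quotient_liftOn' _, fun _ => rfl⟩

theorem contAt (r : ℝ → ℝ) (hc : Continuous r) (hp : Function.Periodic r (2 * Real.pi)) {z : ℂ}
    (hz : z ≠ 0) : ContinuousAt (fun z : ℂ => r (Complex.arg z)) z := by
  obtain ⟨R, hR, hRr⟩ := lift_angle r hc hp
  have h1 : ContinuousAt (fun z : ℂ => R ((Complex.arg z : ℝ) : Real.Angle)) z :=
    ContinuousAt.comp (g := R) (f := fun z : ℂ => ((Complex.arg z : ℝ) : Real.Angle))
      hR.continuousAt (Complex.continuousAt_arg_coe_angle hz)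
  have h2 : (fun z : ℂ => r (Complex.arg z)) = fun z : ℂ => R ((Complex.arg z : ℝ) : Real.Angle) := by
    funext z
    exact (hRr _).symm
  rw [h2]
  exact h1

theorem exists_min (r : ℝ → ℝ) (hc : Continuous r) (hp : Function.Periodic r (2 * Real.pi))
    (h0 : ∀ θ, 0 < r θ) : ∃ d : ℝ, 0 < d ∧ ∀ θ, d ≤ r θ := by
  obtain ⟨t, _, ht⟩ := (isCompact_Icc (a := (0 : ℝ)) (b := 2 * Real.pi)).exists_isMinOn
    ⟨0, ⟨le_rfl, by positivity⟩⟩ hc.continuousOn
  refine ⟨r t, h0 t, fun θ => ?_⟩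
  obtain ⟨y, hy, hy'⟩ := hp.exists_mem_Ico₀ (by positivity) θ
  rw [hy']
  exact ht ⟨hy.1, hy.2.le⟩

theorem exists_max (r : ℝ → ℝ) (hc : Continuous r) (hp : Function.Periodic r (2 * Real.pi)) :
    ∃ M : ℝ, ∀ θ, r θ ≤ M := by
  obtain ⟨t, _, ht⟩ := (isCompact_Icc (a := (0 : ℝ)) (b := 2 * Real.pi)).exists_isMaxOn
    ⟨0, ⟨le_rfl, by positivity⟩⟩ hc.continuousOn
  refine ⟨r t, fun θ => ?_⟩
  obtain ⟨y, hy, hy'⟩ := hp.exists_mem_Ico₀ (by positivity) θ
  rw [hy']
  exact ht ⟨hy.1, hy.2.le⟩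

theorem zz_cont : Continuous zz := by
  unfold zz
  fun_prop

theorem zz_re (w : ℝ × ℝ) : (zz w).re = w.1 := by
  unfold zz
  simp

theorem zz_im (w : ℝ × ℝ) : (zz w).im = w.2 := by
  unfold zz
  simp

theorem zz_smul (a : ℝ) (w : ℝ × ℝ) : zz (a • w) = (a : ℂ) * zz w := by
  unfold zz
  simp only [Prod.smul_fst, Prod.smul_snd, smul_eq_mul, Complex.ofReal_mul]
  ring

theorem zz_zero : zz 0 = 0 := by
  unfold zz
  simp

theorem open_D (r : ℝ → ℝ) (hc : Continuous r) (hp : Function.Periodic r (2 * Real.pi))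
    (h0 : ∀ θ, 0 < r θ) : IsOpen {z : ℂ | ‖z‖ < r (Complex.arg z)} := by
  rw [isOpen_iff_mem_nhds]
  intro z hz
  by_cases h : z = 0
  · obtain ⟨d, hd, hdr⟩ := exists_min r hc hp h0
    rw [h]
    refine Filter.mem_of_superset (Metric.ball_mem_nhds (0 : ℂ) hd) fun y hy => ?_
    rw [mem_ball_zero_iff] at hy
    exact hy.trans_le (hdr _)
  · have h1 : ContinuousAt (fun z : ℂ => ‖z‖) z := continuous_norm.continuousAt
    exact h1.eventually_lt (contAt r hc hp h) hz

theorem star (r : ℝ → ℝ) (h0 : ∀ θ, 0 < r θ) : StarConvex ℝ (0 : ℝ × ℝ) (dom r) := by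
  intro y hy a b _ hb hab
  rw [smul_zero, zero_add]
  change ‖zz (b • y)‖ < r (Complex.arg (zz (b • y)))
  rw [zz_smul]
  rcases hb.eq_or_lt with h | h
  · rw [← h, Complex.ofReal_zero, zero_mul, norm_zero]
    exact h0 _
  · rw [Complex.arg_real_mul _ h, norm_mul, Complex.norm_of_nonneg hb]
    have h1 : ‖zz y‖ < r (Complex.arg (zz y)) := hy
    have h2 : b * ‖zz y‖ ≤ 1 * ‖zz y‖ := mul_le_mul_of_nonneg_right (by linarith) (norm_nonneg _)
    linarith

theorem t_TOP : S_TOP := by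
  intro r hc hp' h0
  have hp : Function.Periodic r (2 * Real.pi) := hp'
  have hopen : IsOpen (dom r) := (open_D r hc hp h0).preimage zz_cont
  have hmem : (0 : ℝ × ℝ) ∈ dom r := by
    change ‖zz 0‖ < r (Complex.arg (zz 0))
    rw [zz_zero, norm_zero]
    exact h0 _
  obtain ⟨M, hM⟩ := exists_max r hc hp
  have hbd : ∀ w ∈ dom r, ‖zz w‖ ≤ M := fun w hw => (le_of_lt hw).trans (hM _)
  refine ⟨hopen, ?_, ⟨M, hbd⟩, (hopen.measure_pos volume ⟨0, hmem⟩).ne', ?_, ?_⟩
  · have := (star r h0).contractibleSpace ⟨0, hmem⟩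
    exact SimplyConnectedSpace.ofContractible _
  · have hsub : dom r ⊆ Metric.closedBall (0 : ℝ × ℝ) M := by
      intro w hw
      rw [mem_closedBall_zero_iff, Prod.norm_def]
      refine max_le ?_ ?_
      · rw [← zz_re w, Real.norm_eq_abs]
        exact (Complex.abs_re_le_norm _).trans (hbd w hw)
      · rw [← zz_im w, Real.norm_eq_abs]
        exact (Complex.abs_im_le_norm _).trans (hbd w hw)
    exact ((measure_mono hsub).trans_lt (isCompact_closedBall (0 : ℝ × ℝ) M).measure_lt_top).ne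
  · rintro ⟨θ₁, θ₂, hne⟩ R hR
    apply hne
    have key : ∀ θ ∈ Set.Ioc (-Real.pi) Real.pi, ∀ ρ : ℝ, 0 < ρ → (ρ < r θ ↔ ρ ^ 2 < R ^ 2) := by
      intro θ hθ ρ hρ
      have h1 : zz (ρ * Real.cos θ, ρ * Real.sin θ) =
          (ρ : ℂ) * (Complex.cos θ + Complex.sin θ * Complex.I) := by
        unfold zz
        push_cast
        ring
      have h2 : ((ρ * Real.cos θ, ρ * Real.sin θ) : ℝ × ℝ) ∈ dom r ↔ ρ < r θ := by
        change ‖zz (ρ * Real.cos θ, ρ * Real.sin θ)‖ <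
          r (Complex.arg (zz (ρ * Real.cos θ, ρ * Real.sin θ))) ↔ ρ < r θ
        rw [h1, Complex.arg_mul_cos_add_sin_mul_I hρ hθ, norm_mul, Complex.norm_of_nonneg hρ.le,
          Complex.norm_cos_add_sin_mul_I, mul_one]
      rw [← h2, hR]
      change (ρ * Real.cos θ) ^ 2 + (ρ * Real.sin θ) ^ 2 < R ^ 2 ↔ ρ ^ 2 < R ^ 2
      have h3 : (ρ * Real.cos θ) ^ 2 + (ρ * Real.sin θ) ^ 2 = ρ ^ 2 := by
        have := Real.sin_sq_add_cos_sq θ
        linear_combination ρ ^ 2 * this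
      rw [h3]
    have key2 : ∀ θ ∈ Set.Ioc (-Real.pi) Real.pi, r θ = |R| := by
      intro θ hθ
      rcases lt_trichotomy (r θ) |R| with h | h | h
      · exfalso
        have h1 : r θ ^ 2 < R ^ 2 := by
          rw [← sq_abs R]
          exact pow_lt_pow_left₀ h (h0 θ).le (by norm_num)
        exact lt_irrefl _ ((key θ hθ (r θ) (h0 θ)).2 h1)
      · exact h
      · exfalso
        have ha := abs_nonneg R
        have h1 := (key θ hθ ((|R| + r θ) / 2) (by linarith [h0 θ])).1 (by linarith)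
        have h2 : R ^ 2 < ((|R| + r θ) / 2) ^ 2 := by
          rw [← sq_abs R]
          exact pow_lt_pow_left₀ (by linarith) ha (by norm_num)
        exact lt_irrefl _ (h1.trans h2)
    have key3 : ∀ θ, r θ = |R| := by
      intro θ
      obtain ⟨y, hy, hy'⟩ := hp.exists_mem_Ioc (by positivity) θ (-Real.pi)
      rw [hy']
      apply key2
      have h1 : -Real.pi + 2 * Real.pi = Real.pi := by ring
      rwa [h1] at hy
    rw [key3, key3]

end Pool.Agent.N674.HW
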